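import Pool.Agent.Lib.MP_9f7b43_nt.Final

/-!
# MP_9f7b43_nt: curves approximating a rational point better than dense sequences (full answer)

Q1 is false: there is a smooth, geometrically integral projective variety `V` over `ℚ` of dimension
`6`, with the very ample line bundle `O(1)`, and a rational point `P` of `V` such that at the real
place `α(P, O(1)) = 6`, this value is attained by a Zariski dense sequence of rational points, and
`α(P, O(1)|C) > 6` for every curve `C` in `V`.

`V` is the Weil restriction, from the cubic field of discriminant `-23` to `ℚ`, of a smooth cubic
surface with a rational point `y` whose tangent plane section is a nodal cubic with conjugate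
tangents. The Zariski dense sequences come from Thue-like sequences of powers of the fundamental
unit on singular cubic curves; the lower bound for curves is a theorem of Thue - Siegel - Dyson type
for near-integral points on curves, together with a `7`-adic obstruction for curves with at most
two places at infinity.
-/

namespace MP9f7b43

/-- **Negation of Q1.** -/
theorem _root_.Pool.Agent.Results.MP_9f7b43_nt.DenseBeatsCurves.result :
    ∃ (ι : Type) (_ : Fintype ι) (V : ProjVar ι) (P : Projectivization ℚ (ι → ℚ)),
      V.GeomIntegral ∧ V.dim = 6 ∧ V.Smooth ∧ P ∈ V.points ∧ alpha V.points P = 6 ∧
        (∃ x : ℕ → Projectivization ℚ (ι → ℚ), V.DenseSeq x ∧ alphaSeq P x = 6) ∧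
        ∀ C : ProjVar ι, V.ideal ≤ C.ideal → C.dim = 1 → 6 < alpha C.points P :=
  finalTheorem

end MP9f7b43
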